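import Pool.Agent.H157R3.SphComb

/-!
A `Z/2`-homology sphere all of whose missing faces have dimension at most `i` and which has the same
`g`-numbers as `K(i, d-1)` is isomorphic to `K(i, d-1)`.

Proof: by the Dehn–Sommerville relations (proved here from the homology of the links) the two
complexes have the same face numbers. Counting non-faces with at most `i + 1` vertices shows that
the complex has at most `q + 1` missing faces. The complement of a set of vertices meeting all
missing faces is a face, so every such set has at least `n - d = q + 1` elements. Hence there are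
exactly `q + 1` missing faces and they are pairwise disjoint.
-/

set_option autoImplicit false

namespace Pool.Agent.Results.MP_94a3a7_co.UniqueMinimizer

open Pool.Agent.H157R3.Sph

/-- Let `d = q i + r` with `1 ≤ r ≤ i`. Every `Δ ∈ S(i, d-1)` with `g_j(Δ) = g_j(K(i, d-1))` for all
`0 ≤ j ≤ d/2` is isomorphic to `K(i, d-1)`. -/
theorem result (i d q r : ℕ) (hi : 1 ≤ i) (hr : 1 ≤ r) (hri : r ≤ i) (hd : d = q * i + r)
    (V : Type) [Fintype V] [DecidableEq V] (Δ : SCx V) (hΔ : InS i d Δ)
    (hg : ∀ j ≤ d / 2, gnum d Δ j = gnum d (KK i q r hi hr) j) :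
    Iso Δ (KK i q r hi hr) := by
  have h1 := numFaces_eq_of_hnum (hnum_eq_of_gnum hg)
  have hKdim : ∀ F ∈ (KK i q r hi hr).faces, F.card ≤ d := by
    intro F hF
    have := card_le_joinBd (sz i q r) (two_le_sz hi hr) F hF
    rw [sum_sz, ← hd] at this
    exact this
  have e1 := fpoly_comp (d := d) Δ (fun σ hσ => eulerian hΔ.sphere σ hσ)
  have e2 := fpoly_joinBd_comp (sz i q r) (two_le_sz hi hr)
  rw [sum_sz, ← hd] at e2
  have h2 := fpoly_eq hΔ.sphere.card_le hKdim e1 e2 h1
  refine iso_of_numFaces hi hr hri hd Δ hΔ.sphere.card_le (fun k => ?_) hΔ.missing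
  have h3 := congrArg (fun p => Polynomial.coeff p k) h2
  simp only [fpoly_coeff] at h3
  exact_mod_cast h3

end Pool.Agent.Results.MP_94a3a7_co.UniqueMinimizer
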